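import Pool.Agent.helper57.MS.Spec

/-!
# Project ms, row UNQ: uniqueness of expansions
-/

set_option autoImplicit false

open Finset

namespace Pool.Agent.helper57.MS

open Pool.Agent.RRank Pool.Agent.helper26.IM

theorem UNQ (hUNI : UNI_stmt) : UNQ_stmt := by
  classical
  intro K _ Ω _ Q F S s κ _ J b R hJ hb hR hInd hsum
  by_contra hcon
  push Not at hcon
  obtain ⟨k₁, hk₁⟩ := hcon
  obtain ⟨k₀, hk₀, hmax⟩ := Finset.exists_max_image (univ.filter fun k => R k ≠ 0)
    (fun k => (J k).card) ⟨k₁, Finset.mem_filter.2 ⟨mem_univ _, hk₁⟩⟩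
  rw [Finset.mem_filter] at hk₀
  set M : ℕ := (J k₀).card with hM
  have hle : ∀ k, R k ≠ 0 → (J k).card ≤ M := fun k hk =>
    hmax k (Finset.mem_filter.2 ⟨mem_univ _, hk⟩)
  have hInd' : F.Ind (fun k : {k // (J k).card = M} => J k.1) (fun k => b k.1) := by
    intro J₀ c hc hmem k
    let c' : κ → K := fun k => if h : (J k).card = M then c ⟨k, h⟩ else 0
    have h1 : ∑ k, c' k • b k = ∑ k : {k // (J k).card = M}, c k • b k.1 := by
      rw [← Fintype.sum_subtype_add_sum_subtype (fun k => (J k).card = M)]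
      have h2 : ∑ i : {k // ¬ (J k).card = M}, c' i.1 • b i.1 = 0 := by
        apply Finset.sum_eq_zero
        intro i _
        have h3 : c' i.1 = 0 := dif_neg i.2
        rw [h3, zero_smul]
      rw [h2, add_zero]
      apply Finset.sum_congr rfl
      intro i _
      have h3 : c' i.1 = c i := dif_pos i.2
      rw [h3]
    have h4 := hInd J₀ c' (by
      intro k hk
      by_cases h : (J k).card = M
      · have h5 : c' k = c ⟨k, h⟩ := dif_pos h
        rw [h5]
        exact hc ⟨k, h⟩ hk
      · exact dif_neg h) (by rw [h1]; exact hmem) k.1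
    have h6 : c' k.1 = c k := dif_pos k.2
    rw [← h6]
    exact h4
  have hL : (∑ k : {k // (J k).card = M}, b k.1 * R k.1) ∈ F.L s M S := by
    have h1 := Fintype.sum_subtype_add_sum_subtype (fun k => (J k).card = M) (fun k => b k * R k)
    rw [hsum] at h1
    have h2 : ∑ k : {k // (J k).card = M}, b k.1 * R k.1
        = - ∑ k : {k // ¬ (J k).card = M}, b k.1 * R k.1 := eq_neg_of_add_eq_zero_left h1
    rw [h2]
    apply (F.L s M S).neg_mem
    apply Submodule.sum_mem
    intro k _
    by_cases hk : R k.1 = 0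
    · rw [hk, mul_zero]
      exact Submodule.zero_mem _
    · apply Submodule.subset_span
      refine ⟨J k.1, (hJ k.1).2, (hJ k.1).1, ?_, b k.1, hb k.1, R k.1, hR k.1, rfl⟩
      exact lt_of_le_of_ne (hle k.1 hk) k.2
  have h := hUNI K Ω Q F S s M {k // (J k).card = M} (fun k => J k.1) (fun k => b k.1)
    (fun k => R k.1) (fun k => ⟨(hJ k.1).1, (hJ k.1).2, k.2⟩) (fun k => hb k.1)
    (fun k => hR k.1) hInd' hL ⟨k₀, rfl⟩
  exact hk₀.2 h

end Pool.Agent.helper57.MS
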